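import Mathlib
import Pool.Agent.Results.MP_696765_co.IrreducibleUnbounded

/-!
# No lonely colour graphs and no pied circuit graphs have unbounded chromatic number

Cayley graphs of finite groups with respect to irreducible generating sets have unbounded chromatic
number (starting file `MP_696765_co.IrreducibleUnbounded`). The edge `{g, h g}` of such a graph is
coloured with the generator `h`.
-/

set_option autoImplicit false

namespace Pool.Agent.Results.MP_2f2576_co.LonelyUnbounded

open Pool.Agent.Results.MP_696765_co.IrreducibleUnbounded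

/-- (i) Every vertex meets at most two edges of each colour. -/
def AtMostTwo {V C : Type*} (X : SimpleGraph V) (c : Sym2 V → C) : Prop :=
  ∀ (v : V) (k : C), {e : Sym2 V | e ∈ X.edgeSet ∧ v ∈ e ∧ c e = k}.encard ≤ 2

/-- `X` is a no pied circuit graph: some edge colouring satisfies (i) and
(ii) in every circuit at least two edges have the same colour. -/
def NoPiedCircuit {V : Type} (X : SimpleGraph V) : Prop :=
  ∃ (C : Type) (c : Sym2 V → C), AtMostTwo X c ∧
    ∀ (v : V) (p : X.Walk v v), p.IsCycle →
      ∃ e ∈ p.edges, ∃ e' ∈ p.edges, e' ≠ e ∧ c e' = c e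

/-- `X` is a no lonely colour graph: some edge colouring satisfies (i) and
(iii) in every circuit each edge has the same colour as some other edge of that circuit. -/
def NoLonelyColour {V : Type} (X : SimpleGraph V) : Prop :=
  ∃ (C : Type) (c : Sym2 V → C), AtMostTwo X c ∧
    ∀ (v : V) (p : X.Walk v v), p.IsCycle →
      ∀ e ∈ p.edges, ∃ e' ∈ p.edges, e' ≠ e ∧ c e' = c e

theorem NoLonelyColour.noPiedCircuit {V : Type} {X : SimpleGraph V} (h : NoLonelyColour X) :
    NoPiedCircuit X := by
  obtain ⟨C, c, h1, h2⟩ := h
  refine ⟨C, c, h1, fun v p hp => ?_⟩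
  cases p with
  | nil => exact absurd hp (by simp)
  | cons hadj q =>
    refine ⟨_, List.mem_cons_self, ?_⟩
    exact h2 v _ hp _ (by simp)

section Cayley

variable {G : Type} [Group G] {H : Set G}

/-- The edge `e` joins some `g` to `x * g`. -/
def Gen (x : G) (e : Sym2 G) : Prop := ∃ g : G, e = s(g, x * g)

theorem gen_unique (hH : IsIrreducibleGeneratingSet H) {x y : G} (hx : x ∈ H) (hy : y ∈ H)
    {e : Sym2 G} (h1 : Gen x e) (h2 : Gen y e) : x = y := by
  obtain ⟨g, rfl⟩ := h1
  obtain ⟨g', h2⟩ := h2
  rw [Sym2.eq_iff] at h2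
  rcases h2 with ⟨h3, h4⟩ | ⟨h3, h4⟩
  · rw [h3] at h4
    exact mul_right_cancel h4
  · by_contra hne
    apply hH.2 y hy
    rw [eq_top_iff, ← hH.1, Subgroup.closure_le]
    intro z hz
    by_cases hzy : z = y
    · have h5 : y = x⁻¹ := by
        rw [h3] at h4
        have h6 : x * y = 1 := by
          have h7 : (x * y) * g' = 1 * g' := by rw [one_mul, mul_assoc, h4]
          exact mul_right_cancel h7
        exact eq_inv_of_mul_eq_one_right h6
      have h8 : x ∈ Subgroup.closure (H \ {y}) := Subgroup.subset_closure ⟨hx, hne⟩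
      have h9 := Subgroup.inv_mem _ h8
      rw [← h5] at h9
      rw [hzy]
      exact h9
    · exact Subgroup.subset_closure ⟨hz, hzy⟩

open Classical in
/-- The colour of an edge: the generator it comes from. -/
noncomputable def col (H : Set G) (e : Sym2 G) : G :=
  if h : ∃ x ∈ H, Gen x e then h.choose else 1

theorem exists_gen {e : Sym2 G} (he : e ∈ (CayleyGraph H).edgeSet) : ∃ x ∈ H, Gen x e := by
  induction e using Sym2.ind with
  | h g g' =>
    obtain ⟨-, x, hx, h | h⟩ := he
    · have h' : g' = x * g := h
      exact ⟨x, hx, g, by rw [h']⟩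
    · have h' : g = x * g' := h
      exact ⟨x, hx, g', by rw [h', Sym2.eq_swap]⟩

theorem col_spec {e : Sym2 G} (he : e ∈ (CayleyGraph H).edgeSet) :
    col H e ∈ H ∧ Gen (col H e) e := by
  have h := exists_gen he
  unfold col
  rw [dif_pos h]
  exact h.choose_spec

theorem noLonelyColour (hH : IsIrreducibleGeneratingSet H) : NoLonelyColour (CayleyGraph H) := by
  refine ⟨G, col H, ?_, ?_⟩
  · intro v k
    have hsub : {e : Sym2 G | e ∈ (CayleyGraph H).edgeSet ∧ v ∈ e ∧ col H e = k} ⊆
        {s(v, k * v), s(k⁻¹ * v, v)} := by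
      rintro e ⟨he, hv, hk⟩
      obtain ⟨-, g, hg⟩ := col_spec he
      rw [hk] at hg
      rw [hg, Sym2.mem_iff] at hv
      rcases hv with rfl | rfl
      · left; exact hg
      · right
        rw [hg]
        simp
    refine (Set.encard_le_encard hsub).trans ?_
    exact (Set.encard_insert_le _ _).trans (by rw [Set.encard_singleton]; norm_num)
  · intro v p hp e he
    by_contra hcon
    push Not at hcon
    have heX : e ∈ (CayleyGraph H).edgeSet := p.edges_subset_edgeSet he
    obtain ⟨hkH, hgen⟩ := col_spec heX
    obtain ⟨k, hk⟩ : ∃ k, k = col H e := ⟨_, rfl⟩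
    rw [← hk] at hkH hgen
    obtain ⟨g, hg⟩ := hgen
    -- the subgraph formed by the edges of the circuit
    let Y : SimpleGraph G := SimpleGraph.fromEdgeSet {e | e ∈ p.edges}
    have hY : ∀ e' ∈ p.edges, e' ∈ Y.edgeSet := by
      intro e' he'
      rw [SimpleGraph.edgeSet_fromEdgeSet]
      refine ⟨he', ?_⟩
      exact (CayleyGraph H).not_isDiag_of_mem_edgeSet (p.edges_subset_edgeSet he')
    have hcyc : (p.transfer Y hY).IsCycle := hp.transfer hY
    have hreach := (SimpleGraph.adj_and_reachable_delete_edges_iff_exists_cycle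
      (G := Y) (v := g) (w := k * g)).2 ⟨v, p.transfer Y hY, hcyc, by
        rw [SimpleGraph.Walk.edges_transfer, ← hg]; exact he⟩
    -- along the other edges we stay in a coset
    have hcoset : ∀ a b : G, (Y \ SimpleGraph.fromEdgeSet {s(g, k * g)}).Reachable a b →
        b * a⁻¹ ∈ Subgroup.closure (H \ {k}) := by
      rintro a b ⟨w⟩
      induction w with
      | nil => rw [mul_inv_cancel]; exact Subgroup.one_mem _
      | @cons a b c hab w ih =>
        have h1 : b * a⁻¹ ∈ Subgroup.closure (H \ {k}) := by
          rw [SimpleGraph.sdiff_adj] at hab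
          obtain ⟨h2, h3⟩ := hab
          have h4 : s(a, b) ∈ p.edges := by
            have : s(a, b) ∈ Y.edgeSet := h2
            rw [SimpleGraph.edgeSet_fromEdgeSet] at this
            exact this.1
          have h5 : s(a, b) ≠ e := by
            intro h6
            apply h3
            rw [SimpleGraph.fromEdgeSet_adj]
            refine ⟨?_, h2.ne⟩
            rw [Set.mem_singleton_iff, h6, hg]
          have h6 := hcon _ h4 h5
          obtain ⟨h7, g', h8⟩ := col_spec (p.edges_subset_edgeSet h4)
          rw [← hk] at h6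
          obtain ⟨x, hx⟩ : ∃ x, x = col H s(a, b) := ⟨_, rfl⟩
          rw [← hx] at h6 h7 h8
          have h9 : x ∈ Subgroup.closure (H \ {k}) :=
            Subgroup.subset_closure ⟨h7, h6⟩
          rw [Sym2.eq_iff] at h8
          rcases h8 with ⟨h10, h11⟩ | ⟨h10, h11⟩
          · have : b * a⁻¹ = x := by
              rw [h11, h10, mul_inv_cancel_right]
            rw [this]; exact h9
          · have : b * a⁻¹ = x⁻¹ := by
              rw [h11, h10, mul_inv_rev, mul_inv_cancel_left]
            rw [this]; exact Subgroup.inv_mem _ h9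
        have h2 : c * a⁻¹ = (c * b⁻¹) * (b * a⁻¹) := by group
        rw [h2]
        exact Subgroup.mul_mem _ ih h1
    have hmem := hcoset _ _ hreach.2
    rw [mul_inv_cancel_right] at hmem
    apply hH.2 k hkH
    rw [eq_top_iff, ← hH.1, Subgroup.closure_le]
    intro z hz
    by_cases hzk : z = k
    · rw [hzk]; exact hmem
    · exact Subgroup.subset_closure ⟨hz, hzk⟩

end Cayley

/-- **Answer to Q1 and Q2 (both negative).** For every `m` there is a finite graph `X` which is a no
lonely colour graph (hence also a no pied circuit graph) and has chromatic number larger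
than `m`. -/
theorem result : ∀ m : ℕ, ∃ (V : Type) (_ : Finite V) (X : SimpleGraph V),
    NoLonelyColour X ∧ NoPiedCircuit X ∧ (m : ℕ∞) < X.chromaticNumber := by
  intro m
  obtain ⟨G, i1, i2, H, -, hH, hm⟩ :=
    Pool.Agent.Results.MP_696765_co.IrreducibleUnbounded.result m
  exact ⟨G, i2, CayleyGraph H, noLonelyColour hH, (noLonelyColour hH).noPiedCircuit, hm⟩

end Pool.Agent.Results.MP_2f2576_co.LonelyUnbounded
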